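import Pool.Agent.R569.WR.Rep
import Pool.Agent.Helper247.Queue
import Pool.Agent.Helper247.Univ

/-!
# The weakly reset property of Mealy automata is undecidable

The definitions (`Mealy`, `Reset`, `WeaklyReset`, `Valid`, `ofTable`) are in
`Pool.Agent.R569.WR.Basic` and `Pool.Agent.R569.WR.Rep`.

Idea of the proof. A queue system (read two letters, append a word depending on them) is simulated by
sweeps from left to right over the space in front of the letter `#`. The letter `#` resets every state
to a state which computes the identity, and exactly the words containing `#` are reset words. One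
state erases everything in front of `#` and writes the initial queue, another one performs a step;
`#` is erased when the space is too small. Every other state acts on the words starting with the left
mark like one of these two or like the identity, and a left mark inside a word restarts the
simulation. So some word keeps its letter `#` under all products of states if and only if the queue
system stops.
-/

set_option autoImplicit false

namespace Pool.Agent.Results.MP_5b5905_lc.Undecidable

open Turing Relation Pool.Agent.Helper247 Pool.Agent.Helper247.Queue Pool.Agent.R569.WR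

/-- Every recursively enumerable set is many-one reducible to the halting set. -/
theorem universal {W : ℕ → Prop} (hW : REPred W) : ∃ g : ℕ → ℕ, Computable g ∧
    ∀ n, W n ↔ (Univ.u (g n)).Dom := by
  have hf : Partrec (fun m : ℕ => (Part.assert (W (Nat.unpair m).1) fun _ => Part.some ()).map
      (fun _ => 0)) :=
    Partrec.map (Partrec.comp hW (Computable.fst.comp Computable.unpair)) (Computable.const 0).to₂
  obtain ⟨c, hc⟩ := Nat.Partrec.Code.exists_code.1 (Partrec.nat_iff.1 hf)
  refine ⟨fun n => Encodable.encode (Nat.Partrec.Code.curry c n),
    Computable.encode.comp (Nat.Partrec.Code.primrec₂_curry.comp (Primrec.const c)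
      Primrec.id).to_comp, fun n => ?_⟩
  unfold Univ.u
  rw [Denumerable.ofNat_encode, Nat.Partrec.Code.eval_curry, hc]
  simp [Part.map, Part.assert]

/-- stopping in terms of the run -/
theorem stops_iff {S : Type} {P : S → S → List S} {K : S}
    (hP : ∀ x y, 2 ≤ (P x y).length ∨ P x y = [K]) {w : List S} (hw : 2 ≤ w.length) :
    QReach P w [K] ↔ ∃ J, (zs P w J).length < 2 := by
  have hstep : ∀ l : List S, 2 ≤ l.length → QStep P l (qs P l) := by
    intro l hl
    rcases l with _ | ⟨x, _ | ⟨y, t⟩⟩
    · simp at hl
    · simp at hl
    · exact QStep.mk x y t
  have hreach : ∀ j, QReach P w (zs P w j) := by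
    intro j
    induction j with
    | zero => exact ReflTransGen.refl
    | succ j ih =>
      by_cases h : 2 ≤ (zs P w j).length
      · exact ih.tail (hstep _ h)
      · have : zs P w (j + 1) = zs P w j := by
          show qs P (zs P w j) = _
          rcases hz : zs P w j with _ | ⟨x, _ | ⟨y, t⟩⟩
          · rfl
          · rfl
          · rw [hz] at h
            simp at h
        rw [this]
        exact ih
  constructor
  · intro h
    have : ∀ z, QReach P w z → ∃ j, zs P w j = z := by
      intro z hz
      induction hz with
      | refl => exact ⟨0, rfl⟩
      | tail _ hs ih =>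
        obtain ⟨j, rfl⟩ := ih
        refine ⟨j + 1, ?_⟩
        have h2 : 2 ≤ (zs P w j).length := by
          generalize zs P w j = z at hs
          cases hs
          simp
        exact qstep_det (hstep _ h2) hs
    obtain ⟨J, hJ⟩ := this _ h
    exact ⟨J, by rw [hJ]; simp⟩
  · rintro ⟨J, hJ⟩
    have : ∀ j, 2 ≤ (zs P w j).length ∨ zs P w j = [K] := by
      intro j
      induction j with
      | zero => exact Or.inl hw
      | succ j ih =>
        show 2 ≤ (qs P (zs P w j)).length ∨ qs P (zs P w j) = [K]
        rcases ih with h | h
        · rcases hz : zs P w j with _ | ⟨x, _ | ⟨y, t⟩⟩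
          · rw [hz] at h
            simp at h
          · rw [hz] at h
            simp at h
          · show 2 ≤ (t ++ P x y).length ∨ t ++ P x y = [K]
            rcases hP x y with h1 | h1
            · left
              rw [List.length_append]
              omega
            · rw [h1]
              cases t with
              | nil => exact Or.inr rfl
              | cons s t =>
                left
                simp
        · rw [h]
          exact Or.inr rfl
    have h2 := hreach J
    rcases this J with h3 | h3
    · omega
    · rwa [h3] at h2

/-- There are a number `m` and a computable family of tables over the alphabet `{0, …, m - 1}` such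
that the `n`-th automaton is weakly reset if and only if the `n`-th computation halts. -/
theorem family : ∃ (m : ℕ) (T : ℕ → List (List (ℕ × ℕ))), Computable T ∧
    (∀ n, Valid (T n) m) ∧ ∀ n (h : Valid (T n) m), (ofTable (T n) m h).WeaklyReset ↔
      (Univ.u n).Dom := by
  classical
  obtain ⟨Λ, i1, i2, M, hM⟩ := Univ.exists_machine
  let S := Queue.Sym (TM2to1.Γ' PartrecToTM2.K' (fun _ => PartrecToTM2.Γ')) Λ
  have fK : Finite PartrecToTM2.K' := by
    refine Finite.of_injective (fun k : PartrecToTM2.K' => match k with
      | .main => (0 : Fin 4)
      | .rev => 1
      | .aux => 2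
      | .stack => 3) ?_
    intro a b h
    cases a <;> cases b <;> simp_all
  have fG : Finite (TM2to1.Γ' PartrecToTM2.K' (fun _ => PartrecToTM2.Γ')) :=
    inferInstanceAs (Finite (Bool × (PartrecToTM2.K' → Option PartrecToTM2.Γ')))
  have fS : Finite S := inferInstanceAs (Finite (Queue.Sym _ _))
  let iS : Fintype S := Fintype.ofFinite S
  let c : S → ℕ := fun x => (Fintype.equivFin S x : ℕ)
  let P : S → S → List S := Queue.prod M
  have hP1 : ∀ x y, 2 ≤ (P x y).length ∨ P x y = [Queue.Sym.kill] := prod_length M
  let tape : ℕ → List (TM2to1.Γ' PartrecToTM2.K' (fun _ => PartrecToTM2.Γ')) := fun n =>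
    Univ.sym true .cons :: (PartrecToTM2.trNat n).reverse.map (Univ.sym false)
  let w0 : ℕ → List S := fun n => initWord (tape n)
  have hw0 : ∀ n, 2 ≤ (w0 n).length := fun n => initWord_length _
  have hw : Computable (fun n => (w0 n).map c) := by
    have hd := Univ.digits_computable (fun a => c (Queue.Sym.cell (Univ.sym false a)))
    have : (fun n => (w0 n).map c) = fun n =>
        (if (((PartrecToTM2.trNat n).map
            (fun a => c (Queue.Sym.cell (Univ.sym false a)))).length + 1) % 2 = 0 then
          [c Queue.Sym.mark, c (Queue.Sym.head default (Univ.sym true .cons))]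
        else [c Queue.Sym.mark, c (Queue.Sym.cell default),
          c (Queue.Sym.head default (Univ.sym true .cons))]) ++
        ((PartrecToTM2.trNat n).map
          (fun a => c (Queue.Sym.cell (Univ.sym false a)))).reverse := by
      funext n
      simp only [w0, tape, initWord, List.length_cons, List.length_map, List.length_reverse]
      split_ifs <;> simp [Function.comp_def]
    rw [this]
    have hlen := Computable.list_length.comp hd
    have hmod : Computable (fun n : ℕ => ((((PartrecToTM2.trNat n).map
            (fun a => c (Queue.Sym.cell (Univ.sym false a)))).length + 1) % 2)) :=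
      (Primrec.nat_mod.comp (Primrec.succ.comp Primrec.id) (Primrec.const 2)).to_comp.comp hlen
    have hite : Computable (fun n : ℕ => (if (((PartrecToTM2.trNat n).map
            (fun a => c (Queue.Sym.cell (Univ.sym false a)))).length + 1) % 2 = 0 then
          [c Queue.Sym.mark, c (Queue.Sym.head default (Univ.sym true .cons))]
        else [c Queue.Sym.mark, c (Queue.Sym.cell default),
          c (Queue.Sym.head default (Univ.sym true .cons))])) := by
      have hp : Primrec (fun m : ℕ => if m = 0 then
          [c Queue.Sym.mark, c (Queue.Sym.head default (Univ.sym true .cons))]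
        else [c Queue.Sym.mark, c (Queue.Sym.cell default),
          c (Queue.Sym.head default (Univ.sym true .cons))]) :=
        Primrec.ite (PrimrecRel.comp Primrec.eq Primrec.id (Primrec.const 0))
          (Primrec.const _) (Primrec.const _)
      exact hp.to_comp.comp hmod
    exact Computable.list_append.comp hite (Computable.list_reverse.comp hd)
  refine ⟨Fintype.card S + 3, fun n => tab P (w0 n), ?_, fun n => valid_tab P (w0 n), ?_⟩
  · have : (fun n => tab P (w0 n)) = fun n => tabF P ((w0 n).map c) := by
      funext n
      exact tab_eq P (w0 n)
    rw [this]
    exact (primrec_tabF P).to_comp.comp hw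
  · intro n h
    rw [(rep P (w0 n)).weaklyReset_iff, ← hM n]
    have hrep : Queue.Rep (TM0.init (tape n) : TM0.Cfg _ Λ) (initWord (tape n)) :=
      rep_init (tape n) (by simp [tape])
    rw [← rep_halts M hrep]
    exact (stops_iff hP1 (hw0 n)).symm

/-- **The weakly reset property of Mealy automata is undecidable.**
(1) No algorithm decides, given a Mealy automaton by its table, whether it is weakly reset.
(2) Over a fixed alphabet `{0, …, m - 1}`, every recursively enumerable set is many-one reducible to
the set of tables of weakly reset automata. -/
theorem result :
    (¬ ∃ f : List (List (ℕ × ℕ)) × ℕ → Bool, Computable f ∧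
      ∀ (T : List (List (ℕ × ℕ))) (m : ℕ) (h : Valid T m),
        f (T, m) = true ↔ (ofTable T m h).WeaklyReset) ∧
    ∃ m : ℕ, ∀ W : ℕ → Prop, REPred W → ∃ T : ℕ → List (List (ℕ × ℕ)), Computable T ∧
      (∀ n, Valid (T n) m) ∧ ∀ n (h : Valid (T n) m), W n ↔ (ofTable (T n) m h).WeaklyReset := by
  obtain ⟨m, T, hT, hv, h⟩ := family
  refine ⟨?_, m, ?_⟩
  · rintro ⟨f, hf, hf2⟩
    apply Univ.u_not_computable
    rw [ComputablePred.computable_iff]
    refine ⟨fun n => f (T n, m), hf.comp (Computable.pair hT (Computable.const m)), ?_⟩
    funext n
    exact propext ((h n (hv n)).symm.trans (hf2 _ _ (hv n)).symm)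
  · intro W hW
    obtain ⟨g, hg, hg2⟩ := universal hW
    exact ⟨fun n => T (g n), hT.comp hg, fun n => hv _, fun n hh => (hg2 n).trans (h _ hh).symm⟩

end Pool.Agent.Results.MP_5b5905_lc.Undecidable
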