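import Mathlib
import Pool.Agent.R652.WReset3

/-!
# The weakly reset property of Mealy automata is undecidable
-/

set_option autoImplicit false

namespace Pool.Agent.Results.MP_5b5905_lc.WeaklyResetUndecidable

open Pool.Agent.R652.WReset

/-- No algorithm decides, for every finite Mealy automaton given by its table, whether it is weakly
reset. -/
theorem result : ¬ ∃ P : Aut → Prop, ComputablePred P ∧
    ∀ A : Aut, Valid A → (P A ↔ WeaklyReset A) := undecidable

end Pool.Agent.Results.MP_5b5905_lc.WeaklyResetUndecidable
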